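import Pool.Agent.Helper10.Lor.Lib

set_option autoImplicit false

/-!
# Lower bound for the sum over the cusps, lattice `U ⊕ E₈`
-/

namespace Pool.Agent.Helper77.Lor

open Pool.Agent.Helper10.Lor

section basics

/-- the summand -/
noncomputable def G (u : ℝ) : ℝ := 3947 / 100 * (1 / u) ^ 2 * psi (106 / 100) (1 / u)

theorem G_nonneg (u : ℝ) : 0 ≤ G u := by
  unfold G psi
  have : 0 ≤ max 0 ((106 : ℝ) / 100 - 1 / (1 / u)) := le_max_left _ _
  positivity

theorem G_le {u : ℝ} (hu : 0 < u) : 3947 / 100 * ((106 / 100 - u) / u ^ 2) ≤ G u := by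
  unfold G psi
  rw [one_div_one_div]
  have h1 : (106 : ℝ) / 100 - u ≤ max 0 (106 / 100 - u) := le_max_right _ _
  have h2 : 0 ≤ 3947 / 100 * (1 / u) ^ 2 := by positivity
  calc 3947 / 100 * ((106 / 100 - u) / u ^ 2)
      = 3947 / 100 * (1 / u) ^ 2 * (106 / 100 - u) := by
        field_simp
    _ ≤ _ := mul_le_mul_of_nonneg_left h1 h2

theorem G_lower {u t : ℝ} (hu : 0 < u) (ht0 : 0 ≤ t) (ht1 : t ≤ 1) :
    3947 / 100 * (t * (118 / 100 - 112 / 100 * u)) ≤ G u := by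
  rcases le_or_gt (118 / 100 - 112 / 100 * u) 0 with h | h
  · have := mul_nonneg ht0 (neg_nonneg.2 h)
    have h2 := G_nonneg u
    linarith
  · refine le_trans ?_ (G_le hu)
    have h1 : t * (118 / 100 - 112 / 100 * u) ≤ 118 / 100 - 112 / 100 * u := by nlinarith
    have h2 : 118 / 100 - 112 / 100 * u ≤ (106 / 100 - u) / u ^ 2 := by
      rw [le_div_iff₀ (by positivity)]
      have : 0 ≤ (u - 1) ^ 2 * (112 / 100 * u + 106 / 100) := by positivity
      nlinarith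
    linarith

theorem G_first {r : ℝ} (hr : 0 < r) : 3947 / 100 * (106 / 100 * r ^ 2 - r) ≤ G (1 / r) := by
  have h := G_le (u := 1 / r) (by positivity)
  have e : (106 / 100 - 1 / r) / (1 / r) ^ 2 = 106 / 100 * r ^ 2 - r := by
    field_simp
  rw [e] at h
  exact h

end basics

section orbit

/-- exchange of the two isotropic coordinates -/
noncomputable def sw : LV 8 ≃ₗ[ℝ] LV 8 where
  toFun x := (x.2.1, x.1, x.2.2)
  map_add' _ _ := rfl
  map_smul' _ _ := rfl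
  invFun x := (x.2.1, x.1, x.2.2)
  left_inv _ := rfl
  right_inv _ := rfl

theorem sw_apply (x : LV 8) : sw x = (x.2.1, x.1, x.2.2) := rfl

theorem sw_mem : sw ∈ OL E8 := by
  refine ⟨⟨fun x y => ?_, fun x hx hx1 => ?_⟩, fun x => ?_⟩
  · rw [sw_apply, sw_apply]
    unfold form
    dsimp only
    ring
  · rw [sw_apply]
    change 0 < x.2.1
    unfold form at hx
    have h0 : 0 ≤ inner ℝ x.2.2 x.2.2 := real_inner_self_nonneg
    by_contra hc
    have : x.1 * x.2.1 ≤ 0 := mul_nonpos_of_nonneg_of_nonpos hx1.le (not_lt.1 hc)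
    nlinarith
  · rw [sw_apply]
    constructor
    · rintro ⟨h1, h2, h3⟩
      exact ⟨h2, h1, h3⟩
    · rintro ⟨h1, h2, h3⟩
      exact ⟨h2, h1, h3⟩

/-- the isotropic vector belonging to a lattice point -/
noncomputable def wv (v : E 8) : LV 8 := (1, ‖v‖ ^ 2 / 2, v)

theorem wv_mem (hT : ∀ {v : E 8}, v ∈ E8 → T v ∈ OL E8) {v : E 8} (hv : v ∈ E8) :
    wv v ∈ Orb E8 := by
  refine ⟨T v * sw, (OL E8).mul_mem (hT hv) sw_mem, ?_⟩
  rw [LinearEquiv.mul_apply, sw_apply]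
  change wv v = ((1 : ℝ), 0 + inner ℝ (0 : E 8) v + 1 * (‖v‖ ^ 2 / 2), (0 : E 8) + (1 : ℝ) • v)
  rw [inner_zero_left, one_smul]
  unfold wv
  simp

theorem w0_mem : (w0 : LV 8) ∈ Orb E8 := ⟨1, (OL E8).one_mem, rfl⟩

theorem uval_wv (v : E 8) {q : Pt 8} (hq : q ∈ UH 8) :
    uval (wv v) q = (‖q.1 - v‖ ^ 2 + q.2 ^ 2) / (2 * q.2) := by
  have hr : 0 < q.2 := hq
  unfold uval form vec wv
  dsimp only
  rw [norm_sub_sq_real, real_inner_smul_left]
  field_simp
  ring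

theorem uval_w0' (q : Pt 8) : uval w0 q = 1 / q.2 := by
  unfold uval form vec w0
  dsimp only
  rw [inner_zero_right]
  ring

theorem sum_reduce (huv : ∀ {g : LV 8 ≃ₗ[ℝ] LV 8}, g ∈ LG 8 → ∀ (w : LV 8) {p : Pt 8},
      p ∈ UH 8 → uval w (act g p) = uval (g⁻¹ w) p)
    {g : LV 8 ≃ₗ[ℝ] LV 8} (hg : g ∈ OL E8) {p : Pt 8} (hp : p ∈ UH 8) (F : ℝ → ENNReal) :
    ∑' w : Orb E8, F (uval w (act g p)) = ∑' w : Orb E8, F (uval w p) := by
  have h1 : ∀ h ∈ OL E8, ∀ w ∈ Orb E8, h w ∈ Orb E8 := by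
    rintro h hh w ⟨γ, hγ, rfl⟩
    exact ⟨h * γ, (OL E8).mul_mem hh hγ, rfl⟩
  let e : Orb E8 ≃ Orb E8 :=
    { toFun := fun w => ⟨g⁻¹ w, h1 _ ((OL E8).inv_mem hg) _ w.2⟩
      invFun := fun w => ⟨g w, h1 _ hg _ w.2⟩
      left_inv := fun w => Subtype.ext (g.apply_symm_apply w)
      right_inv := fun w => Subtype.ext (g.symm_apply_apply w) }
  rw [← e.tsum_eq (fun w : Orb E8 => F (uval w p))]
  refine tsum_congr (fun w => ?_)
  rw [huv hg.1 w hp]
  rfl

/-- half integral vectors -/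
noncomputable def hv (A : Fin 8 → ℤ) : E 8 := WithLp.toLp 2 (fun i => (A i : ℝ) / 2)

theorem hv_apply (A : Fin 8 → ℤ) (i : Fin 8) : hv A i = (A i : ℝ) / 2 := rfl

theorem hv_inj {A B : Fin 8 → ℤ} (h : hv A = hv B) : A = B := by
  funext i
  have h1 : hv A i = hv B i := by rw [h]
  rw [hv_apply, hv_apply] at h1
  have : (A i : ℝ) = B i := by linarith
  exact_mod_cast this

theorem hv_mem {A : Fin 8 → ℤ}
    (h1 : (∀ i, A i % 2 = 0) ∨ (∀ i, A i % 2 = 1)) (h2 : (∑ i, A i) % 4 = 0) : hv A ∈ E8 := by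
  refine ⟨?_, ?_⟩
  · rcases h1 with h | h
    · left
      intro i
      refine ⟨A i / 2, ?_⟩
      rw [hv_apply]
      have : A i = 2 * (A i / 2) := by
        have := h i
        omega
      have h3 : (A i : ℝ) = 2 * ((A i / 2 : ℤ) : ℝ) := by exact_mod_cast this
      linarith
    · right
      intro i
      refine ⟨A i / 2, ?_⟩
      rw [hv_apply]
      have : A i = 2 * (A i / 2) + 1 := by
        have := h i
        omega
      have h3 : (A i : ℝ) = 2 * ((A i / 2 : ℤ) : ℝ) + 1 := by exact_mod_cast this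
      linarith
  · refine ⟨(∑ i, A i) / 4, ?_⟩
    have : ∑ i, A i = 4 * ((∑ i, A i) / 4) := by omega
    have h3 : ((∑ i, A i : ℤ) : ℝ) = 4 * (((∑ i, A i) / 4 : ℤ) : ℝ) := by exact_mod_cast this
    simp_rw [hv_apply]
    rw [← Finset.sum_div, ← Int.cast_sum, h3]
    ring

theorem tsum_lower (hT : ∀ {v : E 8}, v ∈ E8 → T v ∈ OL E8) {ι : Type} [Fintype ι]
    (A : ι → Fin 8 → ℤ) (hA : Function.Injective A)
    (h1 : ∀ j, (∀ i, A j i % 2 = 0) ∨ (∀ i, A j i % 2 = 1))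
    (h2 : ∀ j, (∑ i, A j i) % 4 = 0) {q : Pt 8} (hq : q ∈ UH 8) :
    ENNReal.ofReal (G (1 / q.2) + ∑ j, G ((‖q.1 - hv (A j)‖ ^ 2 + q.2 ^ 2) / (2 * q.2))) ≤
      ∑' w : Orb E8, ENNReal.ofReal (G (uval w q)) := by
  let f : Option ι → Orb E8 := fun o => match o with
    | none => ⟨w0, w0_mem⟩
    | some j => ⟨wv (hv (A j)), wv_mem hT (hv_mem (h1 j) (h2 j))⟩
  have hf : Function.Injective f := by
    intro a b hab
    have hab' : (f a : LV 8) = f b := congrArg Subtype.val hab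
    match a, b with
    | none, none => rfl
    | none, some j =>
      exfalso
      have : (0 : ℝ) = 1 := congrArg Prod.fst hab'
      norm_num at this
    | some j, none =>
      exfalso
      have : (1 : ℝ) = 0 := congrArg Prod.fst hab'
      norm_num at this
    | some j, some k =>
      have : hv (A j) = hv (A k) := congrArg (fun x : LV 8 => x.2.2) hab'
      rw [hA (hv_inj this)]
  refine le_trans (le_of_eq ?_) (ENNReal.tsum_comp_le_tsum_of_injective hf _)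
  rw [tsum_fintype, Fintype.sum_option]
  rw [ENNReal.ofReal_add (G_nonneg _) (Finset.sum_nonneg (fun _ _ => G_nonneg _)),
    ENNReal.ofReal_sum_of_nonneg (fun _ _ => G_nonneg _)]
  congr 1
  · change _ = ENNReal.ofReal (G (uval w0 q))
    rw [uval_w0']
  · refine Finset.sum_congr rfl (fun j _ => ?_)
    change _ = ENNReal.ofReal (G (uval (wv (hv (A j))) q))
    rw [uval_wv _ hq]

end orbit

section numeric

/-- the inequality `(*)` -/
theorem star {r s : ℝ} (h1 : 1 ≤ r) (h2 : r ≤ 128 / 100) (hs : 0 ≤ s) :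
    (1792 / 3947 - 106 / 100 * r ^ 2 + r) * r * (s + r ^ 2 - 1) / 2 ≤
      118 / 100 * r - 56 / 100 * (1 + r ^ 2) + 56 / 100 * s := by
  obtain ⟨t, rfl⟩ : ∃ t, r = 1 + t := ⟨r - 1, by ring⟩
  have ht : 0 ≤ t := by linarith
  have ht2 : t ≤ 28 / 100 := by linarith
  have hP : (1792 / 3947 - 106 / 100 * (1 + t) ^ 2 + (1 + t)) * (1 + t) * ((1 + t) ^ 2 - 1) / 2 ≤
      118 / 100 * (1 + t) - 56 / 100 * (1 + (1 + t) ^ 2) := by
    have a1 := mul_nonneg ht (sq_nonneg (t - 2136 / 10000))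
    have a2 := sq_nonneg (t - 2136 / 10000)
    have a3 : 0 ≤ t ^ 4 := by positivity
    have a4 : 0 ≤ t ^ 5 := by positivity
    nlinarith
  have hQ : (1792 / 3947 - 106 / 100 * (1 + t) ^ 2 + (1 + t)) * (1 + t) ≤ 112 / 100 := by
    have a1 : 0 ≤ t ^ 2 := by positivity
    have a2 : 0 ≤ t ^ 3 := by positivity
    nlinarith
  nlinarith [mul_le_mul_of_nonneg_right hQ hs]

theorem large {r : ℝ} (h : 128 / 100 ≤ r) : 1792 / 3947 ≤ 106 / 100 * r ^ 2 - r := by
  nlinarith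

theorem partA {r s : ℝ} (h1 : 1 ≤ r) (h2 : r ≤ 128 / 100) (hs : s ≤ 5 / 100) :
    (1792 / 3947 - 106 / 100 * r ^ 2 + r) * r ≤
      1888 / 100 * r - 896 / 100 * (1 + r ^ 2 + s) := by
  obtain ⟨t, rfl⟩ : ∃ t, r = 1 + t := ⟨r - 1, by ring⟩
  have ht : 0 ≤ t := by linarith
  have ht2 : t ≤ 28 / 100 := by linarith
  have a1 : 0 ≤ t * (28 / 100 - t) := mul_nonneg ht (by linarith)
  have a2 : 0 ≤ t ^ 3 := by positivity
  nlinarith

theorem partB {r s : ℝ} (h1 : 1 ≤ r) (h2 : r ≤ 128 / 100) (hs : 5 / 100 ≤ s) :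
    (1792 / 3947 - 106 / 100 * r ^ 2 + r) * r * (s + r ^ 2 - 1) ≤ 224 / 100 * s := by
  obtain ⟨t, rfl⟩ : ∃ t, r = 1 + t := ⟨r - 1, by ring⟩
  have ht : 0 ≤ t := by linarith
  have ht2 : t ≤ 28 / 100 := by linarith
  have hP : (1792 / 3947 - 106 / 100 * (1 + t) ^ 2 + (1 + t)) * (1 + t) *
      (5 / 100 + (1 + t) ^ 2 - 1) ≤ 224 / 100 * (5 / 100) := by
    have a1 := mul_nonneg ht (sq_nonneg (t - 1577 / 10000))
    have a2 := sq_nonneg (t - 1577 / 10000)
    have a3 : 0 ≤ t ^ 4 := by positivity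
    have a4 : 0 ≤ t ^ 5 := by positivity
    nlinarith
  have hQ : (1792 / 3947 - 106 / 100 * (1 + t) ^ 2 + (1 + t)) * (1 + t) ≤ 112 / 100 := by
    have a1 : 0 ≤ t ^ 2 := by positivity
    have a2 : 0 ≤ t ^ 3 := by positivity
    nlinarith
  nlinarith [mul_le_mul_of_nonneg_right hQ (by linarith : 0 ≤ s - 5 / 100)]

/-- the weighted sum argument: `ι` is a finite set of vertices with weights `l` -/
theorem weighted {ι : Type} [Fintype ι] [Nonempty ι] {r s : ℝ} (hr : 0 < r) (l D : ι → ℝ)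
    (hl : ∀ j, 0 ≤ l j) (hD : ∀ j, 0 ≤ D j)
    (hD2 : ∀ j, 2 * l j ≤ s + r ^ 2 - 1)
    (hM : ∃ j, 0 < l j)
    (hw : (1792 / 3947 - 106 / 100 * r ^ 2 + r) * r * (s + r ^ 2 - 1) / 2 ≤
      ∑ j, l j * (118 / 100 * r - 56 / 100 * (D j + r ^ 2))) :
    1792 / 100 ≤ G (1 / r) + ∑ j, G ((D j + r ^ 2) / (2 * r)) := by
  have hG1 := G_first hr
  rcases le_or_gt (1792 / 3947 - 106 / 100 * r ^ 2 + r) 0 with hd | hd
  · have : 0 ≤ ∑ j, G ((D j + r ^ 2) / (2 * r)) := Finset.sum_nonneg (fun _ _ => G_nonneg _)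
    nlinarith
  set d : ℝ := 1792 / 3947 - 106 / 100 * r ^ 2 + r with hdd
  obtain ⟨j0, hj0⟩ := Finite.exists_max l
  have hMpos : 0 < l j0 := by
    obtain ⟨j, hj⟩ := hM
    exact hj.trans_le (hj0 j)
  have h1 : ∀ j, 3947 / 100 * (l j / l j0 * (118 / 100 - 112 / 100 * ((D j + r ^ 2) / (2 * r)))) ≤
      G ((D j + r ^ 2) / (2 * r)) := by
    intro j
    refine G_lower ?_ (div_nonneg (hl j) hMpos.le) ((div_le_one hMpos).2 (hj0 j))
    have := hD j
    positivity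
  have h2 := Finset.sum_le_sum (fun j (_ : j ∈ Finset.univ) => h1 j)
  have h3 : ∑ j, 3947 / 100 * (l j / l j0 * (118 / 100 - 112 / 100 * ((D j + r ^ 2) / (2 * r)))) =
      3947 / 100 * ((∑ j, l j * (118 / 100 * r - 56 / 100 * (D j + r ^ 2))) / (l j0 * r)) := by
    rw [Finset.sum_div, Finset.mul_sum]
    refine Finset.sum_congr rfl (fun j _ => ?_)
    field_simp
    ring
  rw [h3] at h2
  have h4 : d ≤ (∑ j, l j * (118 / 100 * r - 56 / 100 * (D j + r ^ 2))) / (l j0 * r) := by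
    rw [le_div_iff₀ (by positivity)]
    refine le_trans ?_ hw
    have h5 := hD2 j0
    have h6 : 0 < d * r := by positivity
    nlinarith
  have h7 : 3947 / 100 * d ≤ ∑ j, G ((D j + r ^ 2) / (2 * r)) :=
    le_trans (by linarith) h2
  linarith

end numeric

section vertices

/-- vertices of the simplex (doubled) -/
def AS : Fin 9 → Fin 8 → ℤ := ![
  ![0, 0, 0, 0, 0, 0, 0, 0],
  ![2, 2, 0, 0, 0, 0, 0, 0],
  ![2, 0, 2, 0, 0, 0, 0, 0],
  ![2, 0, 0, 2, 0, 0, 0, 0],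
  ![2, 0, 0, 0, 2, 0, 0, 0],
  ![2, 0, 0, 0, 0, 2, 0, 0],
  ![2, 0, 0, 0, 0, 0, 2, 0],
  ![2, 0, 0, 0, 0, 0, 0, 2],
  ![1, 1, 1, 1, 1, 1, 1, 1]]

theorem AS_inj : Function.Injective AS := by decide

theorem AS_par : ∀ j, (∀ i, AS j i % 2 = 0) ∨ (∀ i, AS j i % 2 = 1) := by decide

theorem AS_sum : ∀ j, (∑ i, AS j i) % 4 = 0 := by decide

/-- vertices of the cross polytope (doubled) -/
def AC (a : Fin 8 × Bool) (k : Fin 8) : ℤ :=
  (if k = 0 then 2 else 0) + (if a.2 then 1 else -1) * (if k = a.1 then 2 else 0)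

theorem AC_inj : Function.Injective AC := by decide

theorem AC_par : ∀ j, (∀ i, AC j i % 2 = 0) ∨ (∀ i, AC j i % 2 = 1) := by decide

theorem AC_sum : ∀ j, (∑ i, AC j i) % 4 = 0 := by decide

theorem dist_hv (x : E 8) (A : Fin 8 → ℤ) : ‖x - hv A‖ ^ 2 = ∑ i, (x i - (A i : ℝ) / 2) ^ 2 := by
  rw [EuclideanSpace.real_norm_sq_eq]
  rfl

theorem dist_AS {x : E 8} {l : Fin 9 → ℝ}
    (hsum : l 0 + l 1 + l 2 + l 3 + l 4 + l 5 + l 6 + l 7 + l 8 = 1)
    (h0 : x 0 = l 1 + l 2 + l 3 + l 4 + l 5 + l 6 + l 7 + l 8 / 2)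
    (h1 : x 1 = l 1 + l 8 / 2) (h2 : x 2 = l 2 + l 8 / 2) (h3 : x 3 = l 3 + l 8 / 2)
    (h4 : x 4 = l 4 + l 8 / 2) (h5 : x 5 = l 5 + l 8 / 2) (h6 : x 6 = l 6 + l 8 / 2)
    (h7 : x 7 = l 7 + l 8 / 2) (j : Fin 9) :
    ‖x - hv (AS j)‖ ^ 2 = 1 + ∑ i, (l i) ^ 2 - 2 * l j := by
  rw [dist_hv, Fin.sum_univ_eight, h0, h1, h2, h3, h4, h5, h6, h7]
  have e : ∑ i, (l i) ^ 2 = (l 0) ^ 2 + (l 1) ^ 2 + (l 2) ^ 2 + (l 3) ^ 2 + (l 4) ^ 2 +
      (l 5) ^ 2 + (l 6) ^ 2 + (l 7) ^ 2 + (l 8) ^ 2 := by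
    rw [Fin.sum_univ_castSucc, Fin.sum_univ_eight]
    rfl
  rw [e]
  have hl0 : l 0 = 1 - (l 1 + l 2 + l 3 + l 4 + l 5 + l 6 + l 7 + l 8) := by linarith
  fin_cases j <;> simp [AS] <;> rw [hl0] <;> ring

theorem dist_AC {x : E 8} (a : Fin 8 × Bool) :
    ‖x - hv (AC a)‖ ^ 2 = 1 + ∑ i, (x i - if i = 0 then 1 else 0) ^ 2 -
      2 * (if a.2 then 1 else -1) * (x a.1 - if a.1 = 0 then 1 else 0) := by
  rw [dist_hv]
  have h1 : ∀ i, (x i - (AC a i : ℝ) / 2) ^ 2 = (x i - if i = 0 then 1 else 0) ^ 2 +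
      (if i = a.1 then 1 - 2 * (if a.2 then 1 else -1) * (x i - if i = 0 then 1 else 0) else 0) := by
    intro i
    have he : (if a.2 then (1 : ℝ) else -1) ^ 2 = 1 := by
      split_ifs <;> norm_num
    have hAC : ((AC a i : ℤ) : ℝ) / 2 = (if i = 0 then 1 else 0) +
        (if a.2 then 1 else -1) * (if i = a.1 then 1 else 0) := by
      unfold AC
      push_cast
      split_ifs <;> norm_num
    rw [hAC]
    by_cases h : i = a.1
    · rw [if_pos h, if_pos h]
      linear_combination he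
    · rw [if_neg h, if_neg h]
      ring
  simp_rw [h1]
  rw [Finset.sum_add_distrib, Finset.sum_ite_eq' Finset.univ a.1]
  simp only [Finset.mem_univ, if_true]
  ring

end vertices

section final

/-- lower bound at a reduced point -/
theorem reduced (hT : ∀ {v : E 8}, v ∈ E8 → T v ∈ OL E8) {q : Pt 8} (hq : q ∈ UH 8)
    (hmin : ∀ w ∈ Orb E8, 1 / q.2 ≤ uval w q) {z : Fin 8 → ℝ} (hz : ∀ i, z i = q.1 i)
    (hcase : (|z 0 - 1| + |z 1| + |z 2| + |z 3| + |z 4| + |z 5| + |z 6| + |z 7| ≤ 1) ∨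
       ∃ l : Fin 9 → ℝ, (∀ j, 0 ≤ l j) ∧ l 0 + l 1 + l 2 + l 3 + l 4 + l 5 + l 6 + l 7 + l 8 = 1 ∧
        z 0 = l 1 + l 2 + l 3 + l 4 + l 5 + l 6 + l 7 + l 8 / 2 ∧
        z 1 = l 1 + l 8 / 2 ∧ z 2 = l 2 + l 8 / 2 ∧ z 3 = l 3 + l 8 / 2 ∧ z 4 = l 4 + l 8 / 2 ∧
        z 5 = l 5 + l 8 / 2 ∧ z 6 = l 6 + l 8 / 2 ∧ z 7 = l 7 + l 8 / 2) :
    ENNReal.ofReal (1792 / 100) ≤ ∑' w : Orb E8, ENNReal.ofReal (G (uval w q)) := by
  have hr : 0 < q.2 := hq
  -- constraint at a vertex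
  have hcon : ∀ v ∈ E8, 2 ≤ ‖q.1 - v‖ ^ 2 + q.2 ^ 2 := by
    intro v hv
    have h := hmin _ (wv_mem hT hv)
    rw [uval_wv v hq, div_le_div_iff₀ hr (by positivity)] at h
    nlinarith
  rcases hcase with hc | ⟨l, hl, hsum, h0, h1, h2, h3, h4, h5, h6, h7⟩
  · -- cross polytope
    refine le_trans (ENNReal.ofReal_le_ofReal ?_) (tsum_lower hT AC AC_inj AC_par AC_sum hq)
    set r : ℝ := q.2 with hrdef
    set Y : Fin 8 → ℝ := fun i => q.1 i - if i = 0 then 1 else 0 with hY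
    set s : ℝ := ∑ i, (Y i) ^ 2 with hs
    have hs0 : 0 ≤ s := Finset.sum_nonneg (fun _ _ => sq_nonneg _)
    have hS1 : ∑ i, |Y i| ≤ 1 := by
      rw [Fin.sum_univ_eight]
      simp only [hY, ← hz]
      simpa using hc
    have hD : ∀ a : Fin 8 × Bool, ‖q.1 - hv (AC a)‖ ^ 2 =
        1 + s - 2 * (if a.2 then 1 else -1) * Y a.1 := fun a => dist_AC a
    have hcon' : ∀ a : Fin 8 × Bool, 2 * ((if a.2 then 1 else -1) * Y a.1) ≤ s + r ^ 2 - 1 := by
      intro a
      have := hcon _ (hv_mem (AC_par a) (AC_sum a))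
      rw [hD a] at this
      linarith
    have hYb : ∀ i, 2 * |Y i| ≤ s + r ^ 2 - 1 := by
      intro i
      have e1 := hcon' (i, true)
      have e2 := hcon' (i, false)
      simp at e1 e2
      rcases abs_cases (Y i) with ⟨h, _⟩ | ⟨h, _⟩ <;> rw [h] <;> linarith
    have hr1 : 1 ≤ r := by
      obtain ⟨i0, hi0⟩ := Finite.exists_max (fun i => |Y i|)
      have e1 : s ≤ |Y i0| := by
        calc s = ∑ i, |Y i| * |Y i| := by
              rw [hs]
              refine Finset.sum_congr rfl (fun i _ => ?_)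
              rw [← sq, sq_abs]
          _ ≤ ∑ i, |Y i0| * |Y i| := Finset.sum_le_sum (fun i _ =>
              mul_le_mul_of_nonneg_right (hi0 i) (abs_nonneg _))
          _ = |Y i0| * ∑ i, |Y i| := by rw [Finset.mul_sum]
          _ ≤ |Y i0| * 1 := mul_le_mul_of_nonneg_left hS1 (abs_nonneg _)
          _ = |Y i0| := mul_one _
      have e2 := hYb i0
      have e3 := abs_nonneg (Y i0)
      have e4 : 1 ≤ r ^ 2 := by linarith
      nlinarith
    have hG1 := G_first hr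
    have hGs : 0 ≤ ∑ j, G ((‖q.1 - hv (AC j)‖ ^ 2 + r ^ 2) / (2 * r)) :=
      Finset.sum_nonneg (fun _ _ => G_nonneg _)
    rcases le_or_gt (128 / 100) r with hr2 | hr2
    · have := large hr2
      linarith
    rcases le_or_gt s (5 / 100) with hs5 | hs5
    · -- all vertices with weight one
      have hA := partA hr1 hr2.le hs5
      have k1 : ∀ j : Fin 8 × Bool, 3947 / 100 * (1 * (118 / 100 - 112 / 100 *
          ((‖q.1 - hv (AC j)‖ ^ 2 + r ^ 2) / (2 * r)))) ≤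
          G ((‖q.1 - hv (AC j)‖ ^ 2 + r ^ 2) / (2 * r)) := by
        intro j
        refine G_lower ?_ zero_le_one le_rfl
        positivity
      have k2 := Finset.sum_le_sum (fun j (_ : j ∈ Finset.univ) => k1 j)
      have k3 : ∑ j : Fin 8 × Bool, 3947 / 100 * (1 * (118 / 100 - 112 / 100 *
          ((‖q.1 - hv (AC j)‖ ^ 2 + r ^ 2) / (2 * r)))) =
          3947 / 100 * ((1888 / 100 * r - 896 / 100 * (1 + r ^ 2 + s)) / r) := by
        rw [Fintype.sum_prod_type]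
        have k4 : ∀ i : Fin 8, ∑ b : Bool, 3947 / 100 * (1 * (118 / 100 - 112 / 100 *
            ((‖q.1 - hv (AC (i, b))‖ ^ 2 + r ^ 2) / (2 * r)))) =
            3947 / 100 * ((236 / 100 * r - 112 / 100 * (1 + r ^ 2 + s)) / r) := by
          intro i
          rw [Fintype.sum_bool, hD, hD]
          simp only [if_true, Bool.false_eq_true, if_false]
          field_simp
          ring
        rw [Finset.sum_congr rfl (fun i _ => k4 i), Finset.sum_const]
        simp only [Finset.card_univ, Fintype.card_fin, nsmul_eq_mul]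
        field_simp
        ring
      rw [k3] at k2
      have k5 : 1792 / 3947 - 106 / 100 * r ^ 2 + r ≤
          (1888 / 100 * r - 896 / 100 * (1 + r ^ 2 + s)) / r := by
        rw [le_div_iff₀ hr]
        exact hA
      linarith
    · -- weighted sum
      have hB := partB hr1 hr2.le hs5.le
      have hst := star hr1 hr2.le hs0
      refine weighted (s := s) hr (fun a : Fin 8 × Bool => max 0 ((if a.2 then 1 else -1) * Y a.1))
        (fun a => ‖q.1 - hv (AC a)‖ ^ 2) (fun a => le_max_left _ _) (fun a => sq_nonneg _) ?_ ?_ ?_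
      · intro a
        have e1 := hcon' a
        have e2 := hYb 0
        have e3 := abs_nonneg (Y 0)
        rcases max_cases 0 ((if a.2 then 1 else -1) * Y a.1) with ⟨h, _⟩ | ⟨h, _⟩ <;> rw [h] <;>
          linarith
      · by_contra hne
        push Not at hne
        have : ∀ i, Y i = 0 := by
          intro i
          have e1 := hne (i, true)
          have e2 := hne (i, false)
          simp at e1 e2
          linarith
        have : s = 0 := by
          rw [hs]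
          exact Finset.sum_eq_zero (fun i _ => by rw [this i]; norm_num)
        linarith
      · have k1 : ∑ a : Fin 8 × Bool, max 0 ((if a.2 then 1 else -1) * Y a.1) *
            (118 / 100 * r - 56 / 100 * (‖q.1 - hv (AC a)‖ ^ 2 + r ^ 2)) =
            (∑ i, |Y i|) * (118 / 100 * r - 56 / 100 * (1 + r ^ 2 + s)) + 112 / 100 * s := by
          rw [Fintype.sum_prod_type]
          have k2 : ∀ i : Fin 8, ∑ b : Bool, max 0 ((if b then 1 else -1) * Y i) *
              (118 / 100 * r - 56 / 100 * (‖q.1 - hv (AC (i, b))‖ ^ 2 + r ^ 2)) =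
              |Y i| * (118 / 100 * r - 56 / 100 * (1 + r ^ 2 + s)) + 112 / 100 * (Y i) ^ 2 := by
            intro i
            rw [Fintype.sum_bool, hD, hD]
            simp only [if_true, Bool.false_eq_true, if_false]
            rcases le_total 0 (Y i) with h | h
            · rw [abs_of_nonneg h, max_eq_right (by linarith), max_eq_left (by linarith)]
              ring
            · rw [abs_of_nonpos h, max_eq_left (by linarith), max_eq_right (by linarith)]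
              ring
          rw [Finset.sum_congr rfl (fun i _ => k2 i), Finset.sum_add_distrib, ← Finset.sum_mul,
            ← Finset.mul_sum]
        rw [k1]
        rcases le_or_gt 0 (118 / 100 * r - 56 / 100 * (1 + r ^ 2 + s)) with hk | hk
        · have := mul_nonneg (Finset.sum_nonneg (fun i (_ : i ∈ Finset.univ) => abs_nonneg (Y i))) hk
          linarith
        · have := mul_le_mul_of_nonneg_right hS1 (neg_nonneg.2 hk.le)
          linarith
  · -- simplex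
    refine le_trans (ENNReal.ofReal_le_ofReal ?_) (tsum_lower hT AS AS_inj AS_par AS_sum hq)
    rw [hz] at h0 h1 h2 h3 h4 h5 h6 h7
    set r : ℝ := q.2 with hrdef
    set s : ℝ := ∑ i, (l i) ^ 2 with hs
    have hD : ∀ j, ‖q.1 - hv (AS j)‖ ^ 2 = 1 + s - 2 * l j := fun j =>
      dist_AS hsum h0 h1 h2 h3 h4 h5 h6 h7 j
    have hsum' : ∑ j, l j = 1 := by
      rw [Fin.sum_univ_castSucc, Fin.sum_univ_eight]
      exact hsum
    have hs0 : 0 ≤ s := Finset.sum_nonneg (fun _ _ => sq_nonneg _)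
    have hcon' : ∀ j, 2 * l j ≤ s + r ^ 2 - 1 := by
      intro j
      have := hcon _ (hv_mem (AS_par j) (AS_sum j))
      rw [hD j] at this
      linarith
    have hr1 : 1 ≤ r := by
      obtain ⟨j0, hj0⟩ := Finite.exists_max l
      have e1 : s ≤ l j0 := by
        calc s = ∑ i, l i * l i := by
              rw [hs]
              exact Finset.sum_congr rfl (fun i _ => sq _)
          _ ≤ ∑ i, l j0 * l i := Finset.sum_le_sum (fun i _ =>
              mul_le_mul_of_nonneg_right (hj0 i) (hl i))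
          _ = l j0 := by rw [← Finset.mul_sum, hsum', mul_one]
      have e2 := hcon' j0
      have e3 := hl j0
      have e4 : 1 ≤ r ^ 2 := by linarith
      nlinarith
    have hG1 := G_first hr
    have hGs : 0 ≤ ∑ j, G ((‖q.1 - hv (AS j)‖ ^ 2 + r ^ 2) / (2 * r)) :=
      Finset.sum_nonneg (fun _ _ => G_nonneg _)
    rcases le_or_gt (128 / 100) r with hr2 | hr2
    · have := large hr2
      linarith
    refine weighted (s := s) hr l (fun a => ‖q.1 - hv (AS a)‖ ^ 2) hl (fun a => sq_nonneg _)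
      hcon' ?_ ?_
    · by_contra hne
      push Not at hne
      have : ∑ j, l j ≤ 0 := Finset.sum_nonpos (fun j _ => hne j)
      linarith
    · refine (star hr1 hr2.le hs0).trans (le_of_eq ?_)
      have k1 : ∀ j, l j * (118 / 100 * r - 56 / 100 * (‖q.1 - hv (AS j)‖ ^ 2 + r ^ 2)) =
          l j * (118 / 100 * r - 56 / 100 * (1 + r ^ 2 + s)) + 112 / 100 * (l j) ^ 2 := by
        intro j
        rw [hD j]
        ring
      rw [Finset.sum_congr rfl (fun j _ => k1 j), Finset.sum_add_distrib, ← Finset.sum_mul,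
        ← Finset.mul_sum, hsum']
      ring

/-- module LOW8 (the results of the modules ALG and RED8 are hypotheses) -/
theorem lower_E8_aux
    (huv : ∀ {g : LV 8 ≃ₗ[ℝ] LV 8}, g ∈ LG 8 → ∀ (w : LV 8) {p : Pt 8},
      p ∈ UH 8 → uval w (act g p) = uval (g⁻¹ w) p)
    (hact : ∀ {g : LV 8 ≃ₗ[ℝ] LV 8}, g ∈ LG 8 → ∀ {p : Pt 8}, p ∈ UH 8 → act g p ∈ UH 8)
    (hT : ∀ {v : E 8}, v ∈ E8 → T v ∈ OL E8)
    (hred : ∀ {p : Pt 8}, p ∈ UH 8 → ∃ γ ∈ OL E8,
      (∀ w ∈ Orb E8, 1 / (act γ p).2 ≤ uval w (act γ p)) ∧ ∃ z : Fin 8 → ℝ,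
      (∀ i, z i = (act γ p).1 i) ∧
        ((|z 0 - 1| + |z 1| + |z 2| + |z 3| + |z 4| + |z 5| + |z 6| + |z 7| ≤ 1) ∨
         ∃ l : Fin 9 → ℝ, (∀ j, 0 ≤ l j) ∧
          l 0 + l 1 + l 2 + l 3 + l 4 + l 5 + l 6 + l 7 + l 8 = 1 ∧
          z 0 = l 1 + l 2 + l 3 + l 4 + l 5 + l 6 + l 7 + l 8 / 2 ∧
          z 1 = l 1 + l 8 / 2 ∧ z 2 = l 2 + l 8 / 2 ∧ z 3 = l 3 + l 8 / 2 ∧ z 4 = l 4 + l 8 / 2 ∧
          z 5 = l 5 + l 8 / 2 ∧ z 6 = l 6 + l 8 / 2 ∧ z 7 = l 7 + l 8 / 2))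
    {p : Pt 8} (hp : p ∈ UH 8) :
    ENNReal.ofReal (16 * (112 / 100)) ≤
      ∑' w : Orb E8, ENNReal.ofReal (3947 / 100 * (1 / uval w p) ^ 2 *
        psi (106 / 100) (1 / uval w p)) := by
  obtain ⟨γ, hγ, hmin, z, hz, hcase⟩ := hred hp
  have h := reduced hT (hact hγ.1 hp) hmin hz hcase
  rw [sum_reduce huv hγ hp (fun u => ENNReal.ofReal (G u))] at h
  have e : (16 * (112 / 100) : ℝ) = 1792 / 100 := by norm_num
  rw [e]
  exact h

end final

end Pool.Agent.Helper77.Lor
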