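import Pool.Agent.Helper10.Lor.Lib

set_option autoImplicit false

/-!
# The root lattice `E₈` is an even lattice with a basis
-/

namespace Pool.Agent.Helper77.Lor

open Pool.Agent.Helper10.Lor

/-- a basis of `E₈` -/
noncomputable def bE8 : Fin 8 → E 8 := ![
  WithLp.toLp 2 ![2, 0, 0, 0, 0, 0, 0, 0],
  WithLp.toLp 2 ![-1, 1, 0, 0, 0, 0, 0, 0],
  WithLp.toLp 2 ![0, -1, 1, 0, 0, 0, 0, 0],
  WithLp.toLp 2 ![0, 0, -1, 1, 0, 0, 0, 0],
  WithLp.toLp 2 ![0, 0, 0, -1, 1, 0, 0, 0],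
  WithLp.toLp 2 ![0, 0, 0, 0, -1, 1, 0, 0],
  WithLp.toLp 2 ![0, 0, 0, 0, 0, -1, 1, 0],
  WithLp.toLp 2 ![1 / 2, 1 / 2, 1 / 2, 1 / 2, 1 / 2, 1 / 2, 1 / 2, 1 / 2]]

theorem sum_apply (g : Fin 8 → ℝ) (i : Fin 8) : (∑ j, g j • bE8 j) i =
    (![2 * g 0 - g 1 + g 7 / 2, g 1 - g 2 + g 7 / 2, g 2 - g 3 + g 7 / 2, g 3 - g 4 + g 7 / 2,
      g 4 - g 5 + g 7 / 2, g 5 - g 6 + g 7 / 2, g 6 + g 7 / 2, g 7 / 2] : Fin 8 → ℝ) i := by
  rw [Fin.sum_univ_eight]
  simp only [PiLp.add_apply, PiLp.smul_apply, smul_eq_mul]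
  fin_cases i <;> simp [bE8] <;> ring

theorem li_bE8 : LinearIndependent ℝ bE8 := by
  rw [Fintype.linearIndependent_iff]
  intro g hg
  have h : ∀ i, (∑ j, g j • bE8 j) i = 0 := fun i => by rw [hg]; rfl
  have h0 := h 0
  have h1 := h 1
  have h2 := h 2
  have h3 := h 3
  have h4 := h 4
  have h5 := h 5
  have h6 := h 6
  have h7 := h 7
  rw [sum_apply] at h0 h1 h2 h3 h4 h5 h6 h7
  simp at h0 h1 h2 h3 h4 h5 h6 h7
  have g7 : g 7 = 0 := by linarith
  have g6 : g 6 = 0 := by linarith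
  have g5 : g 5 = 0 := by linarith
  have g4 : g 4 = 0 := by linarith
  have g3 : g 3 = 0 := by linarith
  have g2 : g 2 = 0 := by linarith
  have g1 : g 1 = 0 := by linarith
  have g0 : g 0 = 0 := by linarith
  intro i
  fin_cases i
  · exact g0
  · exact g1
  · exact g2
  · exact g3
  · exact g4
  · exact g5
  · exact g6
  · exact g7

theorem bE8_mem : ∀ i, bE8 i ∈ E8 := by
  have key : ∀ k : Fin 8 → ℤ, (∃ m : ℤ, ∑ i, k i = 2 * m) →
      (WithLp.toLp 2 (fun i => (k i : ℝ)) : E 8) ∈ E8 := by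
    rintro k ⟨m, hm⟩
    refine ⟨Or.inl (fun i => ⟨k i, rfl⟩), m, ?_⟩
    change ∑ i, (k i : ℝ) = 2 * m
    exact_mod_cast hm
  have eqn : ∀ (k : Fin 8 → ℤ) (x : Fin 8 → ℝ), (∀ i, (k i : ℝ) = x i) →
      (WithLp.toLp 2 (fun i => (k i : ℝ)) : E 8) = WithLp.toLp 2 x := by
    intro k x h
    congr 1
    funext i
    exact h i
  intro i
  fin_cases i
  · have h := key ![2, 0, 0, 0, 0, 0, 0, 0] ⟨1, by decide⟩
    rw [eqn _ ![2, 0, 0, 0, 0, 0, 0, 0] (by intro i; fin_cases i <;> simp)] at h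
    exact h
  · have h := key ![-1, 1, 0, 0, 0, 0, 0, 0] ⟨0, by decide⟩
    rw [eqn _ ![-1, 1, 0, 0, 0, 0, 0, 0] (by intro i; fin_cases i <;> simp)] at h
    exact h
  · have h := key ![0, -1, 1, 0, 0, 0, 0, 0] ⟨0, by decide⟩
    rw [eqn _ ![0, -1, 1, 0, 0, 0, 0, 0] (by intro i; fin_cases i <;> simp)] at h
    exact h
  · have h := key ![0, 0, -1, 1, 0, 0, 0, 0] ⟨0, by decide⟩
    rw [eqn _ ![0, 0, -1, 1, 0, 0, 0, 0] (by intro i; fin_cases i <;> simp)] at h
    exact h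
  · have h := key ![0, 0, 0, -1, 1, 0, 0, 0] ⟨0, by decide⟩
    rw [eqn _ ![0, 0, 0, -1, 1, 0, 0, 0] (by intro i; fin_cases i <;> simp)] at h
    exact h
  · have h := key ![0, 0, 0, 0, -1, 1, 0, 0] ⟨0, by decide⟩
    rw [eqn _ ![0, 0, 0, 0, -1, 1, 0, 0] (by intro i; fin_cases i <;> simp)] at h
    exact h
  · have h := key ![0, 0, 0, 0, 0, -1, 1, 0] ⟨0, by decide⟩
    rw [eqn _ ![0, 0, 0, 0, 0, -1, 1, 0] (by intro i; fin_cases i <;> simp)] at h
    exact h
  · refine ⟨Or.inr (fun i => ⟨0, ?_⟩), 2, ?_⟩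
    · fin_cases i <;> simp [bE8]
    · rw [Fin.sum_univ_eight]
      simp [bE8]
      norm_num

/-- module LAT8 -/
theorem evenLat_E8 : ∃ b : Fin 8 → E 8, EvenLat E8 b := by
  refine ⟨bE8, li_bE8, ?_, ?_⟩
  · intro x
    constructor
    · rintro ⟨hx, s, hs⟩
      rw [Fin.sum_univ_eight] at hs
      -- it suffices to solve the triangular system
      have main : ∀ m : Fin 8 → ℤ,
          x 0 = 2 * m 0 - m 1 + m 7 / 2 → x 1 = m 1 - m 2 + m 7 / 2 → x 2 = m 2 - m 3 + m 7 / 2 →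
          x 3 = m 3 - m 4 + m 7 / 2 → x 4 = m 4 - m 5 + m 7 / 2 → x 5 = m 5 - m 6 + m 7 / 2 →
          x 6 = m 6 + m 7 / 2 → x 7 = m 7 / 2 → ∃ m : Fin 8 → ℤ, x = ∑ i, (m i : ℝ) • bE8 i := by
        intro m h0 h1 h2 h3 h4 h5 h6 h7
        refine ⟨m, ?_⟩
        ext i
        rw [sum_apply]
        fin_cases i
        · simpa using h0
        · simpa using h1
        · simpa using h2
        · simpa using h3
        · simpa using h4
        · simpa using h5
        · simpa using h6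
        · simpa using h7
      rcases hx with hx | hx
      · choose k hk using hx
        refine main ![s - 4 * k 7, k 1 + k 2 + k 3 + k 4 + k 5 + k 6 - 6 * k 7,
          k 2 + k 3 + k 4 + k 5 + k 6 - 5 * k 7, k 3 + k 4 + k 5 + k 6 - 4 * k 7,
          k 4 + k 5 + k 6 - 3 * k 7, k 5 + k 6 - 2 * k 7, k 6 - k 7, 2 * k 7]
          ?_ ?_ ?_ ?_ ?_ ?_ ?_ ?_
        all_goals
          simp
          simp only [hk] at hs ⊢
          try linarith
      · choose k hk using hx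
        refine main ![s - 4 * k 7 - 2, k 1 + k 2 + k 3 + k 4 + k 5 + k 6 - 6 * k 7,
          k 2 + k 3 + k 4 + k 5 + k 6 - 5 * k 7, k 3 + k 4 + k 5 + k 6 - 4 * k 7,
          k 4 + k 5 + k 6 - 3 * k 7, k 5 + k 6 - 2 * k 7, k 6 - k 7, 2 * k 7 + 1]
          ?_ ?_ ?_ ?_ ?_ ?_ ?_ ?_
        all_goals
          simp
          simp only [hk] at hs ⊢
          try linarith
    · rintro ⟨m, rfl⟩
      refine AddSubgroup.sum_mem _ (fun i _ => ?_)
      rw [Int.cast_smul_eq_zsmul]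
      exact AddSubgroup.zsmul_mem _ (bE8_mem i) _
  · rintro x ⟨hx, s, hs⟩
    rw [EuclideanSpace.real_norm_sq_eq]
    rcases hx with hx | hx
    · choose k hk using hx
      have ht : ∀ i, ∃ t : ℤ, k i * (k i - 1) = t + t := fun i => Int.even_mul_pred_self (k i)
      choose t ht using ht
      refine ⟨∑ i, t i + s, ?_⟩
      have h1 : ∀ i, (x i) ^ 2 = 2 * (t i : ℝ) + x i := by
        intro i
        have := ht i
        rw [hk i]
        have h2 : ((k i * (k i - 1) : ℤ) : ℝ) = ((t i + t i : ℤ) : ℝ) := by rw [this]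
        push_cast at h2
        linarith
      simp_rw [h1]
      rw [Finset.sum_add_distrib, hs, ← Finset.mul_sum]
      push_cast
      ring
    · choose k hk using hx
      have ht : ∀ i, ∃ t : ℤ, k i * (k i + 1) = t + t := fun i => Int.even_mul_succ_self (k i)
      choose t ht using ht
      refine ⟨∑ i, t i + 1, ?_⟩
      have h1 : ∀ i, (x i) ^ 2 = 2 * (t i : ℝ) + 1 / 4 := by
        intro i
        have := ht i
        rw [hk i]
        have h2 : ((k i * (k i + 1) : ℤ) : ℝ) = ((t i + t i : ℤ) : ℝ) := by rw [this]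
        push_cast at h2
        linarith
      simp_rw [h1]
      rw [Finset.sum_add_distrib, ← Finset.mul_sum]
      simp
      norm_num
      ring

end Pool.Agent.Helper77.Lor
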