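import Pool.Agent.Helper10.Lor.Lib

set_option autoImplicit false

/-!
# Wirtinger inequality on the torus of a lattice (port of `Pool/Agent/Helper44/Ram5/W.lean`)
-/

namespace Pool.Agent.Helper77.Lor

open Pool.Agent.Helper10.Lor
open MeasureTheory Topology Set

noncomputable section

local instance : MeasureSpace UnitAddCircle := ⟨AddCircle.haarAddCircle⟩

local instance : Measure.IsAddHaarMeasure (volume : Measure UnitAddCircle) :=
  inferInstanceAs (Measure.IsAddHaarMeasure AddCircle.haarAddCircle)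

local instance : IsProbabilityMeasure (volume : Measure UnitAddCircle) :=
  inferInstanceAs (IsProbabilityMeasure AddCircle.haarAddCircle)

variable {n : ℕ}

/-- the unit cube -/
abbrev Q (n : ℕ) : Set (Fin n → ℝ) := Icc (0 : Fin n → ℝ) 1

/-- representative of a point of the torus in the cube -/
def rep (t : UnitAddTorus (Fin n)) : Fin n → ℝ :=
  (UnitAddTorus.measurableEquivPiIoc (0 : Fin n → ℝ) t).1

theorem measurable_rep : Measurable (rep (n := n)) :=
  measurable_subtype_coe.comp (UnitAddTorus.measurableEquivPiIoc (0 : Fin n → ℝ)).measurable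

theorem rep_mem (t : UnitAddTorus (Fin n)) : rep t ∈ Q n := by
  have h := (UnitAddTorus.measurableEquivPiIoc (0 : Fin n → ℝ) t).2
  constructor
  · intro i
    exact (h i).1.le
  · intro i
    have := (h i).2
    have e : ((0 : Fin n → ℝ) i) + 1 = (1 : Fin n → ℝ) i := by simp
    rw [e] at this
    exact this

theorem rep_coe {x : Fin n → ℝ}
    (hx : ∀ i, x i ∈ Ioc ((0 : Fin n → ℝ) i) ((0 : Fin n → ℝ) i + 1)) :
    rep (fun i => (x i : UnitAddCircle)) = x := by
  have := (UnitAddTorus.measurableEquivPiIoc (0 : Fin n → ℝ)).apply_symm_apply ⟨x, hx⟩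
  have h2 := congrArg Subtype.val this
  exact h2

theorem setQ : {x : Fin n → ℝ | ∀ i, x i ∈ Ioc ((0 : Fin n → ℝ) i) ((0 : Fin n → ℝ) i + 1)}
    =ᵐ[volume] Q n := by
  have h : {x : Fin n → ℝ | ∀ i, x i ∈ Ioc ((0 : Fin n → ℝ) i) ((0 : Fin n → ℝ) i + 1)} =
      Set.pi univ fun i => Ioc ((0 : Fin n → ℝ) i) ((1 : Fin n → ℝ) i) := by
    ext x
    simp
  rw [h]
  exact Measure.univ_pi_Ioc_ae_eq_Icc

theorem integral_torus {E : Type*} [NormedAddCommGroup E] [NormedSpace ℝ E]
    (F : UnitAddTorus (Fin n) → E) (F' : (Fin n → ℝ) → E)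
    (h : ∀ x : Fin n → ℝ, (∀ i, x i ∈ Ioc ((0 : Fin n → ℝ) i) ((0 : Fin n → ℝ) i + 1)) →
      F (fun i => (x i : UnitAddCircle)) = F' x) :
    ∫ t, F t = ∫ x in Q n, F' x := by
  rw [UnitAddTorus.integral_preimage F 0, ← setIntegral_congr_set setQ]
  apply setIntegral_congr_fun
  · exact MeasurableSet.univ_pi' (fun i => measurableSet_Ioc)
  · intro x hx
    exact h x hx

/-- the characters -/
def ch (ν : Fin n → ℤ) (x : Fin n → ℝ) : ℂ :=
  Complex.exp (-(2 * Real.pi * Complex.I) * ∑ i, (ν i : ℂ) * (x i : ℂ))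

theorem mF (ν : Fin n → ℤ) (x : Fin n → ℝ) :
    UnitAddTorus.mFourier (-ν) (fun i => (x i : UnitAddCircle)) = ch ν x := by
  unfold UnitAddTorus.mFourier ch
  simp only [ContinuousMap.coe_mk, fourier_coe_apply]
  rw [← Complex.exp_sum, Finset.mul_sum]
  congr 1
  apply Finset.sum_congr rfl
  intro i _
  simp
  ring

/-- Fourier coefficients -/
def co (G : (Fin n → ℝ) → ℂ) (ν : Fin n → ℤ) : ℂ := ∫ x in Q n, ch ν x * G x

theorem parseval {G : (Fin n → ℝ) → ℂ} (hG : Continuous G) :
    HasSum (fun ν => ‖co G ν‖ ^ 2) (∫ x in Q n, ‖G x‖ ^ 2) := by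
  obtain ⟨C, hC⟩ := (isCompact_Icc : IsCompact (Q n)).exists_bound_of_continuousOn hG.continuousOn
  have hm : MemLp (fun t => G (rep t)) 2 (volume : Measure (UnitAddTorus (Fin n))) :=
    MemLp.of_bound (hG.measurable.comp measurable_rep).aestronglyMeasurable C
      (Filter.Eventually.of_forall fun t => hC _ (rep_mem t))
  have h1 := UnitAddTorus.hasSum_sq_mFourierCoeff hm.toLp
  have e1 : ∀ ν, UnitAddTorus.mFourierCoeff hm.toLp ν = co G ν := by
    intro ν
    unfold UnitAddTorus.mFourierCoeff co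
    have : ∫ t, UnitAddTorus.mFourier (-ν) t • (hm.toLp : UnitAddTorus (Fin n) → ℂ) t =
        ∫ t, UnitAddTorus.mFourier (-ν) t • G (rep t) := by
      apply integral_congr_ae
      filter_upwards [hm.coeFn_toLp] with t ht
      rw [ht]
    rw [this]
    apply integral_torus
    intro x hx
    rw [rep_coe hx, mF, smul_eq_mul]
  have e2 : ∫ t, ‖(hm.toLp : UnitAddTorus (Fin n) → ℂ) t‖ ^ 2 = ∫ x in Q n, ‖G x‖ ^ 2 := by
    have : ∫ t, ‖(hm.toLp : UnitAddTorus (Fin n) → ℂ) t‖ ^ 2 = ∫ t, ‖G (rep t)‖ ^ 2 := by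
      apply integral_congr_ae
      filter_upwards [hm.coeFn_toLp] with t ht
      rw [ht]
    rw [this]
    apply integral_torus
    intro x hx
    rw [rep_coe hx]
  simp only [e1] at h1
  rw [e2] at h1
  exact h1

/-- integral of a derivative of a periodic function -/
theorem int_deriv : ∀ {n : ℕ} {H : (Fin n → ℝ) → ℂ} (_ : ContDiff ℝ 1 H) (i : Fin n)
    (_ : ∀ x, H (x + Pi.single i 1) = H x),
    ∫ x in Q n, fderiv ℝ H x (Pi.single i 1) = 0
  | 0, _, _, i, _ => i.elim0
  | n + 1, H, hH, i, hp => by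
    have hc : Continuous (fun x => fderiv ℝ H x (Pi.single i 1)) :=
      (hH.continuous_fderiv one_ne_zero).clm_apply continuous_const
    have hs : ∀ x : Fin (n + 1) → ℝ, ∑ j, (if j = i then fderiv ℝ H x else 0) (Pi.single j 1) =
        fderiv ℝ H x (Pi.single i 1) := by
      intro x
      rw [Finset.sum_eq_single i]
      · rw [if_pos rfl]
      · intro j _ hj
        rw [if_neg hj]
        rfl
      · intro h
        exact absurd (Finset.mem_univ i) h
    have key := integral_divergence_of_hasFDerivAt_off_countable' (n := n) (E := ℂ)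
      (0 : Fin (n + 1) → ℝ) 1 (by intro j; simp) (fun j => if j = i then H else fun _ => 0)
      (fun j x => if j = i then fderiv ℝ H x else 0) ∅ countable_empty
      (by
        intro j
        by_cases hj : j = i
        · simp only [if_pos hj]
          exact hH.continuous.continuousOn
        · simp only [if_neg hj]
          exact continuousOn_const)
      (by
        intro x _ j
        by_cases hj : j = i
        · simp only [if_pos hj]
          exact (hH.differentiable (by norm_num) x).hasFDerivAt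
        · simp only [if_neg hj]
          exact hasFDerivAt_const _ _)
      (by
        simp only [hs]
        exact hc.continuousOn.integrableOn_compact isCompact_Icc)
    simp only [hs] at key
    rw [key]
    apply Finset.sum_eq_zero
    intro j _
    by_cases hj : j = i
    · subst hj
      rw [sub_eq_zero]
      congr 1
      funext y
      simp only [if_true]
      have e : (j.insertNth ((1 : Fin (n + 1) → ℝ) j) y : Fin (n + 1) → ℝ) =
          (j.insertNth ((0 : Fin (n + 1) → ℝ) j) y : Fin (n + 1) → ℝ) + Pi.single j 1 := by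
        funext l
        refine Fin.succAboveCases j ?_ ?_ l
        · simp
        · intro l
          simp
      exact (congrArg H e).trans (hp _)
    · simp only [if_neg hj]
      simp

theorem contDiff_ch (ν : Fin n → ℤ) : ContDiff ℝ 1 (ch ν) := by
  unfold ch
  apply ContDiff.cexp
  apply contDiff_const.mul
  apply ContDiff.sum
  intro i _
  apply contDiff_const.mul
  exact Complex.ofRealCLM.contDiff.comp (contDiff_apply ℝ ℝ i)

theorem deriv_ch (ν : Fin n → ℤ) (i : Fin n) (x : Fin n → ℝ) :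
    fderiv ℝ (ch ν) x (Pi.single i 1) = -(2 * Real.pi * Complex.I) * ν i * ch ν x := by
  have h1 : HasFDerivAt (fun x : Fin n → ℝ => ∑ i, (ν i : ℂ) * (x i : ℂ))
      (∑ i, (ν i : ℂ) • (Complex.ofRealCLM.comp (ContinuousLinearMap.proj (R := ℝ)
        (φ := fun _ : Fin n => ℝ) i))) x := by
    apply HasFDerivAt.fun_sum
    intro i _
    exact ((Complex.ofRealCLM.comp (ContinuousLinearMap.proj (R := ℝ)
        (φ := fun _ : Fin n => ℝ) i)).hasFDerivAt).const_mul (ν i : ℂ)
  have h2 := (h1.const_mul (-(2 * Real.pi * Complex.I))).cexp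
  have h3 : fderiv ℝ (ch ν) x = _ := h2.fderiv
  rw [h3]
  have h4 : (∑ j, (ν j : ℂ) • (Complex.ofRealCLM.comp (ContinuousLinearMap.proj (R := ℝ)
        (φ := fun _ : Fin n => ℝ) j)) : (Fin n → ℝ) →L[ℝ] ℂ) (Pi.single i 1) = ν i := by
    rw [sum_apply, Finset.sum_eq_single i]
    · simp
    · intro j _ hj
      simp [hj]
    · intro h
      exact absurd (Finset.mem_univ i) h
  rw [smul_apply, smul_apply, h4]
  unfold ch
  simp only [smul_eq_mul]
  ring

theorem ch_per (ν : Fin n → ℤ) (i : Fin n) (x : Fin n → ℝ) :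
    ch ν (x + Pi.single i 1) = ch ν x := by
  unfold ch
  have : ∑ j, (ν j : ℂ) * (((x + Pi.single i 1 : Fin n → ℝ) j : ℝ) : ℂ) =
      (∑ j, (ν j : ℂ) * (x j : ℂ)) + ν i := by
    simp only [Pi.add_apply, Complex.ofReal_add, mul_add, Finset.sum_add_distrib]
    congr 1
    rw [Finset.sum_eq_single i]
    · simp
    · intro j _ hj
      simp [hj]
    · intro h
      exact absurd (Finset.mem_univ i) h
  rw [this, mul_add, Complex.exp_add]
  have h2 : Complex.exp (-(2 * Real.pi * Complex.I) * ν i) = 1 := by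
    rw [Complex.exp_eq_one_iff]
    exact ⟨-ν i, by push_cast; ring⟩
  rw [h2, mul_one]

/-- coefficient of a derivative -/
theorem co_deriv {G : (Fin n → ℝ) → ℂ} (hG : ContDiff ℝ 1 G) (i : Fin n)
    (hp : ∀ x, G (x + Pi.single i 1) = G x) (ν : Fin n → ℤ) :
    co (fun x => fderiv ℝ G x (Pi.single i 1)) ν = 2 * Real.pi * Complex.I * ν i * co G ν := by
  have h1 := int_deriv (H := fun x => ch ν x * G x) ((contDiff_ch ν).mul hG) i
    (fun x => by rw [ch_per, hp])
  have e : ∀ x, fderiv ℝ (fun x => ch ν x * G x) x (Pi.single i 1) =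
      ch ν x * fderiv ℝ G x (Pi.single i 1) - (2 * Real.pi * Complex.I * ν i) * (ch ν x * G x) := by
    intro x
    have d1 : DifferentiableAt ℝ (ch ν) x := (contDiff_ch ν).differentiable (by norm_num) x
    have d2 : DifferentiableAt ℝ G x := hG.differentiable (by norm_num) x
    rw [fderiv_fun_mul d1 d2]
    simp only [add_apply, smul_apply, smul_eq_mul]
    rw [deriv_ch]
    ring
  simp only [e] at h1
  have i1 : IntegrableOn (fun x => ch ν x * fderiv ℝ G x (Pi.single i 1)) (Q n) := by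
    apply Continuous.integrableOn_Icc
    exact (contDiff_ch ν).continuous.mul
      ((hG.continuous_fderiv one_ne_zero).clm_apply continuous_const)
  have i2 : IntegrableOn (fun x => (2 * Real.pi * Complex.I * ν i) * (ch ν x * G x)) (Q n) := by
    apply Continuous.integrableOn_Icc
    exact continuous_const.mul ((contDiff_ch ν).continuous.mul hG.continuous)
  rw [integral_sub i1 i2, integral_const_mul, sub_eq_zero] at h1
  exact h1

theorem co_lin {a : Fin n → (Fin n → ℝ) → ℂ} (ha : ∀ i, Continuous (a i)) (c : Fin n → ℝ)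
    (ν : Fin n → ℤ) : co (fun x => ∑ i, (c i : ℂ) * a i x) ν = ∑ i, (c i : ℂ) * co (a i) ν := by
  have hn := (contDiff_ch ν).continuous
  have ia : ∀ i ∈ Finset.univ, Integrable (fun x => (c i : ℂ) * (ch ν x * a i x))
      (volume.restrict (Q n)) := fun i _ =>
    (continuous_const.mul (hn.mul (ha i))).integrableOn_Icc
  unfold co
  have e : ∀ x, ch ν x * ∑ i, (c i : ℂ) * a i x = ∑ i, (c i : ℂ) * (ch ν x * a i x) := by
    intro x
    rw [Finset.mul_sum]
    refine Finset.sum_congr rfl (fun i _ => ?_)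
    ring
  simp only [e]
  rw [integral_finsetSum _ ia]
  refine Finset.sum_congr rfl (fun i _ => ?_)
  rw [integral_const_mul]

/-- the inequality on the cube -/
theorem cube {G : (Fin n → ℝ) → ℂ} (hG : ContDiff ℝ 1 G)
    (hp : ∀ i x, G (x + Pi.single i 1) = G x) (C : Fin n → Fin n → ℝ) {m : ℝ}
    (hdual : ∀ ν : Fin n → ℤ, ν ≠ 0 → m ≤ ∑ k, (∑ i, C k i * (ν i : ℝ)) ^ 2)
    (hm : ∫ x in Q n, G x = 0) :
    4 * Real.pi ^ 2 * m * ∫ x in Q n, ‖G x‖ ^ 2 ≤
      ∫ x in Q n, ∑ k, ‖∑ i, (C k i : ℂ) * fderiv ℝ G x (Pi.single i 1)‖ ^ 2 := by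
  have hc : ∀ i : Fin n, Continuous (fun x => fderiv ℝ G x (Pi.single i 1)) := fun i =>
    (hG.continuous_fderiv one_ne_zero).clm_apply continuous_const
  have hck : ∀ k : Fin n, Continuous (fun x => ∑ i, (C k i : ℂ) * fderiv ℝ G x (Pi.single i 1)) :=
    fun k => continuous_finsetSum _ (fun i _ => continuous_const.mul (hc i))
  have p := parseval hG.continuous
  have pk := fun k => parseval (hck k)
  have hco0 : co G 0 = 0 := by
    unfold co ch
    simpa using hm
  have key : ∀ ν : Fin n → ℤ, 4 * Real.pi ^ 2 * m * ‖co G ν‖ ^ 2 ≤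
      ∑ k, ‖co (fun x => ∑ i, (C k i : ℂ) * fderiv ℝ G x (Pi.single i 1)) ν‖ ^ 2 := by
    intro ν
    have e3 : ∀ k, co (fun x => ∑ i, (C k i : ℂ) * fderiv ℝ G x (Pi.single i 1)) ν =
        2 * Real.pi * Complex.I * ((∑ i, C k i * (ν i : ℝ) : ℝ) : ℂ) * co G ν := by
      intro k
      rw [co_lin hc (C k) ν]
      simp only [co_deriv hG _ (hp _) ν]
      push_cast
      rw [Finset.mul_sum, Finset.sum_mul]
      refine Finset.sum_congr rfl (fun i _ => ?_)
      ring
    have nrm : ∀ t : ℝ, ‖2 * Real.pi * Complex.I * (t : ℂ) * co G ν‖ ^ 2 =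
        4 * Real.pi ^ 2 * t ^ 2 * ‖co G ν‖ ^ 2 := by
      intro t
      rw [norm_mul, norm_mul, norm_mul, norm_mul, Complex.norm_I]
      simp only [Complex.norm_real, Complex.norm_ofNat, Real.norm_eq_abs]
      rw [mul_one, mul_pow, mul_pow, mul_pow, sq_abs, sq_abs]
      norm_num
    simp only [e3, nrm]
    by_cases hn : ν = 0
    · rw [hn, hco0]
      simp
    · have h2 := hdual ν hn
      have h4 : 0 ≤ 4 * Real.pi ^ 2 * ‖co G ν‖ ^ 2 := by positivity
      have h5 := mul_le_mul_of_nonneg_left h2 h4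
      rw [Finset.mul_sum] at h5
      refine le_trans (le_of_eq ?_) (h5.trans (le_of_eq ?_))
      · ring
      · refine Finset.sum_congr rfl (fun k _ => ?_)
        ring
  have h := hasSum_le key (p.mul_left (4 * Real.pi ^ 2 * m)) (hasSum_sum (fun k _ => pk k))
  have c0 : ∀ {F : (Fin n → ℝ) → ℂ}, Continuous F →
      Integrable (fun x => ‖F x‖ ^ 2) (volume.restrict (Q n)) := fun hF =>
    (hF.norm.pow 2).integrableOn_Icc
  rw [integral_finsetSum _ (fun k _ => c0 (hck k))]
  exact h

theorem isOpen_UH (n : ℕ) : IsOpen (UH n) := isOpen_lt continuous_const continuous_snd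

/-- the parametrisation of the cell -/
def cp (b : Fin n → E n) (r : ℝ) (x : Fin n → ℝ) : Pt n := (∑ i, x i • b i, r)

/-- its linear part -/
def cpL (b : Fin n → E n) : (Fin n → ℝ) →L[ℝ] E n :=
  ∑ i, (ContinuousLinearMap.proj (R := ℝ) (φ := fun _ : Fin n => ℝ) i).smulRight (b i)

theorem cpL_apply (b : Fin n → E n) (x : Fin n → ℝ) : cpL b x = ∑ i, x i • b i := by
  unfold cpL
  rw [sum_apply]
  rfl

theorem cpL_single (b : Fin n → E n) (i : Fin n) : cpL b (Pi.single i 1) = b i := by
  rw [cpL_apply, Finset.sum_eq_single i]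
  · simp
  · intro j _ hj
    simp [hj]
  · intro h
    exact absurd (Finset.mem_univ i) h

theorem cp_eq (b : Fin n → E n) (r : ℝ) : cp b r = fun x => (cpL b x, r) := by
  funext x
  unfold cp
  rw [cpL_apply]

theorem cp_hasFDerivAt (b : Fin n → E n) (r : ℝ) (x : Fin n → ℝ) :
    HasFDerivAt (cp b r) ((cpL b).prod (0 : (Fin n → ℝ) →L[ℝ] ℝ)) x := by
  rw [cp_eq]
  exact (cpL b).hasFDerivAt.prodMk (hasFDerivAt_const r x)

theorem cp_contDiff (b : Fin n → E n) (r : ℝ) : ContDiff ℝ 1 (cp b r) := by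
  rw [cp_eq]
  exact (cpL b).contDiff.prodMk contDiff_const

/-- module WIR -/
theorem wirtinger {b : Fin n → E n} (hb : LinearIndependent ℝ b) {m : ℝ} (_hm : 0 < m)
    (hdual : DualMin b m) {u : Pt n → ℂ}
    (hu : ContDiffOn ℝ 1 u (UH n))
    (hper : ∀ i, ∀ p ∈ UH n, u (p.1 + b i, p.2) = u p) {r : ℝ} (hr : 0 < r)
    (hmean : ∫ x in Set.Icc (0 : Fin n → ℝ) 1, u (∑ i, x i • b i, r) = 0) :
    ENNReal.ofReal (4 * Real.pi ^ 2 * m) *
        cellInt b (fun p => ENNReal.ofReal (‖u p‖ ^ 2)) r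
      ≤ cellInt b (fun p => ENNReal.ofReal (∑ k : Fin n, ‖pd (dir k) u p‖ ^ 2)) r := by
  have hmem : ∀ x, cp b r x ∈ UH n := fun x => hr
  set G : (Fin n → ℝ) → ℂ := fun x => u (cp b r x) with hGdef
  have hG : ContDiff ℝ 1 G := hu.comp_contDiff (cp_contDiff b r) hmem
  have hp : ∀ i x, G (x + Pi.single i 1) = G x := by
    intro i x
    have := hper i (cp b r x) (hmem x)
    simp only [hGdef]
    rw [← this]
    congr 1
    rw [cp_eq]
    simp only
    rw [map_add, cpL_single]
  have hdu : ∀ p ∈ UH n, HasFDerivAt u (fderiv ℝ u p) p := fun p hp =>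
    ((hu.contDiffAt ((isOpen_UH n).mem_nhds hp)).differentiableAt (by norm_num)).hasFDerivAt
  have hdG : ∀ x i, fderiv ℝ G x (Pi.single i 1) = fderiv ℝ u (cp b r x) (b i, 0) := by
    intro x i
    have h1 := (hdu _ (hmem x)).comp x (cp_hasFDerivAt b r x)
    have h2 : fderiv ℝ G x = _ := h1.fderiv
    rw [h2, ← cpL_single b i]
    rfl
  have hcu : ContinuousOn (fderiv ℝ u) (UH n) :=
    hu.continuousOn_fderiv_of_isOpen (isOpen_UH n) le_rfl
  have hcd : ∀ w : Pt n, Continuous (fun x => fderiv ℝ u (cp b r x) w) := by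
    intro w
    have h1 : Continuous (fun x => fderiv ℝ u (cp b r x)) :=
      hcu.comp_continuous (cp_contDiff b r).continuous hmem
    exact h1.clm_apply continuous_const
  -- the basis
  let 𝔅 : Module.Basis (Fin n) ℝ (E n) :=
    basisOfLinearIndependentOfCardEqFinrank' b hb (by simp)
  have h𝔅 : ∀ i, 𝔅 i = b i := fun i => by
    simp [𝔅]
  let C : Fin n → Fin n → ℝ := fun k i => 𝔅.repr (EuclideanSpace.single k 1) i
  have hC : ∀ k, ∑ i, C k i • b i = EuclideanSpace.single k 1 := by
    intro k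
    have := 𝔅.sum_repr (EuclideanSpace.single k 1)
    simp only [h𝔅] at this
    exact this
  have hdualC : ∀ ν : Fin n → ℤ, ν ≠ 0 → m ≤ ∑ k, (∑ i, C k i * (ν i : ℝ)) ^ 2 := by
    intro ν hν
    let lam : E n →ₗ[ℝ] ℝ := 𝔅.constr ℝ (fun i => (ν i : ℝ))
    have hlam : ∀ i, lam (b i) = ν i := fun i => by
      rw [← h𝔅 i]
      exact 𝔅.constr_basis ℝ _ i
    let ξ : E n := WithLp.toLp 2 (fun k => ∑ i, C k i * (ν i : ℝ))
    have hξk : ∀ k, ξ k = lam (EuclideanSpace.single k 1) := by
      intro k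
      rw [← hC k, map_sum]
      simp only [map_smul, hlam, smul_eq_mul]
      rfl
    have hξ : ∀ v : E n, inner ℝ ξ v = lam v := by
      intro v
      have h1 : v = ∑ k, v k • (EuclideanSpace.single k (1 : ℝ) : E n) := by
        ext j
        simp [Pi.single_apply]
      conv_rhs => rw [h1, map_sum]
      simp only [map_smul, ← hξk, smul_eq_mul]
      rw [PiLp.inner_apply]
      refine Finset.sum_congr rfl (fun k _ => ?_)
      simp
    have hξ0 : ξ ≠ 0 := by
      intro h0
      apply hν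
      funext i
      have h1 := hξ (b i)
      rw [h0, inner_zero_left, hlam] at h1
      exact_mod_cast h1.symm
    have h2 := hdual ξ hξ0 (fun i => ⟨ν i, by rw [hξ, hlam]⟩)
    rw [EuclideanSpace.real_norm_sq_eq] at h2
    exact h2
  have key := cube hG hp C hdualC hmean
  have hpt : ∀ x, ∑ k, ‖∑ i, (C k i : ℂ) * fderiv ℝ G x (Pi.single i 1)‖ ^ 2 =
      ∑ k : Fin n, ‖pd (dir k) u (cp b r x)‖ ^ 2 := by
    intro x
    refine Finset.sum_congr rfl (fun k _ => ?_)
    congr 2
    simp only [hdG]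
    unfold pd dir
    have e : ((EuclideanSpace.single k (1 : ℝ) : E n), (0 : ℝ)) =
        ∑ i, C k i • ((b i, (0 : ℝ)) : Pt n) := by
      rw [← hC k]
      refine Prod.ext ?_ ?_
      · rw [Prod.fst_sum]
        rfl
      · rw [Prod.snd_sum]
        simp
    rw [e, map_sum]
    refine Finset.sum_congr rfl (fun i _ => ?_)
    rw [map_smul]
    simp
  simp only [hpt] at key
  have hk : Continuous (fun x => ∑ k : Fin n, ‖pd (dir k) u (cp b r x)‖ ^ 2) := by
    apply continuous_finsetSum
    intro k _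
    exact ((hcd _).norm.pow 2)
  have i1 : IntegrableOn (fun x => ‖G x‖ ^ 2) (Q n) := (hG.continuous.norm.pow 2).integrableOn_Icc
  have i2 : IntegrableOn (fun x => ∑ k : Fin n, ‖pd (dir k) u (cp b r x)‖ ^ 2) (Q n) :=
    hk.integrableOn_Icc
  have l1 : cellInt b (fun p => ENNReal.ofReal (‖u p‖ ^ 2)) r =
      ENNReal.ofReal (∫ x in Q n, ‖G x‖ ^ 2) := by
    rw [ofReal_integral_eq_lintegral_ofReal i1 (Filter.Eventually.of_forall fun x => by positivity)]
    rfl
  have l2 : cellInt b (fun p => ENNReal.ofReal (∑ k : Fin n, ‖pd (dir k) u p‖ ^ 2)) r =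
      ENNReal.ofReal (∫ x in Q n, ∑ k : Fin n, ‖pd (dir k) u (cp b r x)‖ ^ 2) := by
    rw [ofReal_integral_eq_lintegral_ofReal i2 (Filter.Eventually.of_forall fun x => by positivity)]
    rfl
  rw [l1, l2, ← ENNReal.ofReal_mul (by positivity)]
  exact ENNReal.ofReal_le_ofReal key

end

end Pool.Agent.Helper77.Lor
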